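import Mathlib

/-! Lower bounds for the middle binomial coefficient. -/

namespace Pool.Agent.Lib.MP_725e58_gt

open Filter Topology

lemma central_succ (n : ℕ) (c : ℕ) (hc : c ≤ 3) (hn : 1 ≤ n) {a : ℕ} (h : a ≤ n.centralBinom) :
    c * a ≤ (n + 1).centralBinom := by
  have h1 := Nat.succ_mul_centralBinom_succ n
  have h2 : (n + 1) * (c * a) ≤ (n + 1) * (n + 1).centralBinom := by
    rw [h1]
    have h3 : (n + 1) * c ≤ 2 * (2 * n + 1) := by nlinarith
    calc (n + 1) * (c * a) = ((n + 1) * c) * a := by ring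
      _ ≤ (2 * (2 * n + 1)) * n.centralBinom := Nat.mul_le_mul h3 h
  exact Nat.le_of_mul_le_mul_left h2 (Nat.succ_pos n)

lemma central_three {n : ℕ} (hn : 5 ≤ n) : 3 ^ n ≤ n.centralBinom := by
  induction n, hn using Nat.le_induction with
  | base => decide
  | succ n hn ih =>
    rw [pow_succ']
    exact central_succ n 3 le_rfl (by omega) ih

lemma central_two {n : ℕ} (hn : 1 ≤ n) : 2 ^ n ≤ n.centralBinom := by
  induction n, hn using Nat.le_induction with
  | base => decide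
  | succ n hn ih =>
    rw [pow_succ']
    exact central_succ n 2 (by norm_num) (by omega) ih

lemma central_two' {n : ℕ} (hn : 2 ≤ n) : 2 ^ n * 4 ≤ 3 * n.centralBinom := by
  induction n, hn using Nat.le_induction with
  | base => decide
  | succ n hn ih =>
    have h := Nat.succ_mul_centralBinom_succ n
    have h3 : 2 * (n + 1) ≤ 2 * (2 * n + 1) := by omega
    have h4 : (n + 1) * (2 ^ (n + 1) * 4) ≤ (n + 1) * (3 * (n + 1).centralBinom) := by
      calc (n + 1) * (2 ^ (n + 1) * 4) = (2 * (n + 1)) * (2 ^ n * 4) := by ring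
        _ ≤ (2 * (2 * n + 1)) * (3 * n.centralBinom) := Nat.mul_le_mul h3 ih
        _ = 3 * (2 * (2 * n + 1) * n.centralBinom) := by ring
        _ = 3 * ((n + 1) * (n + 1).centralBinom) := by rw [h]
        _ = (n + 1) * (3 * (n + 1).centralBinom) := by ring
    exact Nat.le_of_mul_le_mul_left h4 (Nat.succ_pos n)

lemma choose_even (n : ℕ) : Nat.choose (2 * n) (2 * n / 2) = n.centralBinom := by
  rw [Nat.mul_div_cancel_left n two_pos]
  rfl

lemma two_choose_odd (n : ℕ) :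
    2 * Nat.choose (2 * n + 1) ((2 * n + 1) / 2) = (n + 1).centralBinom := by
  rw [show (2 * n + 1) / 2 = n by omega]
  have h : (n + 1).centralBinom = Nat.choose (2 * n + 1) n + Nat.choose (2 * n + 1) (n + 1) := by
    rw [Nat.centralBinom, show 2 * (n + 1) = (2 * n + 1) + 1 by ring, Nat.choose_succ_succ]
  have h2 : Nat.choose (2 * n + 1) (n + 1) = Nat.choose (2 * n + 1) n := by
    rw [← Nat.choose_symm_half]
  rw [h, h2]
  ring

lemma pow_two_le (d : ℕ) : 2 ^ d ≤ (d + 1) * Nat.choose d (d / 2) := by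
  rw [← Nat.sum_range_choose]
  calc ∑ i ∈ Finset.range (d + 1), d.choose i ≤ ∑ _i ∈ Finset.range (d + 1), d.choose (d / 2) :=
        Finset.sum_le_sum fun i _ => Nat.choose_le_middle i d
    _ = (d + 1) * Nat.choose d (d / 2) := by simp

lemma eventually_le {m : ℝ} (hm0 : 0 < m) (hm : m < 4) :
    ∃ d₀ : ℕ, ∀ d ≥ d₀, √m ^ d ≤ ((Nat.choose d (d / 2) : ℕ) : ℝ) := by
  have hs : √m / 2 < 1 := by
    rw [div_lt_one two_pos, Real.sqrt_lt' two_pos]
    linarith
  have hs0 : 0 < √m / 2 := by positivity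
  have h1 : Tendsto (fun d : ℕ => (d : ℝ) ^ 1 * (√m / 2) ^ d) atTop (𝓝 0) :=
    tendsto_pow_const_mul_const_pow_of_abs_lt_one 1 (by rw [abs_of_pos hs0]; exact hs)
  have h2 : Tendsto (fun d : ℕ => (√m / 2) ^ d) atTop (𝓝 0) :=
    tendsto_pow_atTop_nhds_zero_of_lt_one hs0.le hs
  have h3 := h1.add h2
  rw [add_zero] at h3
  obtain ⟨d₀, hd₀⟩ := (h3.eventually (gt_mem_nhds (show (0 : ℝ) < 1 by norm_num))).exists_forall_of_atTop
  refine ⟨d₀, fun d hd => ?_⟩
  have h4 := hd₀ d hd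
  have h5 : ((d : ℝ) + 1) * (√m / 2) ^ d < 1 := by
    have : ((d : ℝ) + 1) * (√m / 2) ^ d = (d : ℝ) ^ 1 * (√m / 2) ^ d + (√m / 2) ^ d := by ring
    rw [this]
    exact h4
  have h6 : ((2 : ℝ) ^ d) ≤ ((d : ℝ) + 1) * ((Nat.choose d (d / 2) : ℕ) : ℝ) := by
    exact_mod_cast pow_two_le d
  have h7 : √m ^ d = (√m / 2) ^ d * 2 ^ d := by
    rw [← mul_pow]
    congr 1
    ring
  calc √m ^ d = (√m / 2) ^ d * 2 ^ d := h7
    _ ≤ (√m / 2) ^ d * (((d : ℝ) + 1) * ((Nat.choose d (d / 2) : ℕ) : ℝ)) := by gcongr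
    _ = (((d : ℝ) + 1) * (√m / 2) ^ d) * ((Nat.choose d (d / 2) : ℕ) : ℝ) := by ring
    _ ≤ 1 * ((Nat.choose d (d / 2) : ℕ) : ℝ) := by gcongr
    _ = _ := one_mul _

end Pool.Agent.Lib.MP_725e58_gt
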