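import Mathlib

/-! Definitions for the hand-ins on reflection bodies. -/

namespace Pool.Agent.Lib.MP_725e58_gt

/-- The reflection body `conv (K ∪ (2x - K))` of a set `K` about a point `x`. -/
def ReflBody {d : ℕ} (K : Set (EuclideanSpace ℝ (Fin d))) (x : EuclideanSpace ℝ (Fin d)) :
    Set (EuclideanSpace ℝ (Fin d)) :=
  convexHull ℝ (K ∪ (fun y => (2 : ℝ) • x - y) '' K)

/-- `K` is convex and its asymmetry about `x` is at most `m`: for every point `y` of `K` the point
`x + (x - y) / m` belongs to `K` (equivalently, `-(K - x) ⊆ m (K - x)`). -/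
def AsymAt {d : ℕ} (K : Set (EuclideanSpace ℝ (Fin d))) (x : EuclideanSpace ℝ (Fin d)) (m : ℝ) :
    Prop :=
  Convex ℝ K ∧ ∀ y ∈ K, x + m⁻¹ • (x - y) ∈ K

end Pool.Agent.Lib.MP_725e58_gt
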