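import Mathlib

/-!
# Radial scaling of the vertices of a polytope

For finitely many vectors `v i`, the polytope `conv (0, v i)` is a union of the simplicial cells
of a fan; scaling the vertices radially by factors `a i > 0` multiplies the volume of the cell
with vertex set `I` by `∏ i ∈ I, a i`, and the new cells still do not overlap.
-/

namespace Pool.Agent.Lib.MP_725e58_gt

open MeasureTheory Module Finset

variable {E : Type*} [NormedAddCommGroup E] [NormedSpace ℝ E]
variable {ι : Type*} [Fintype ι]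

/-- `T a v w = {∑ c i a i v i : c ≥ 0, ∑ c i w i ≤ 1}`. -/
def T (a : ι → ℝ) (v : ι → E) (w : ι → ℝ) : Set E :=
  {y | ∃ c : ι → ℝ, (∀ i, 0 ≤ c i) ∧ ∑ i, c i * w i ≤ 1 ∧ y = ∑ i, (c i * a i) • v i}

/-- The part of `T a v w` with coefficients supported in `I`. -/
def cell (I : Finset ι) (a : ι → ℝ) (v : ι → E) (w : ι → ℝ) : Set E :=
  {y | ∃ c : ι → ℝ, (∀ i, 0 ≤ c i) ∧ (∀ i, i ∉ I → c i = 0) ∧ ∑ i, c i * w i ≤ 1 ∧
    y = ∑ i, (c i * a i) • v i}

lemma cell_subset (I : Finset ι) (a : ι → ℝ) (v : ι → E) (w : ι → ℝ) :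
    cell I a v w ⊆ T a v w := by
  rintro y ⟨c, h0, _, h1, h2⟩
  exact ⟨c, h0, h1, h2⟩

/-- `I` is a facet of the fan. -/
def IsFacet (v : ι → E) (w : ι → ℝ) (I : Finset ι) : Prop :=
  LinearIndepOn ℝ v (I : Set ι) ∧ I.card = finrank ℝ E ∧
    ∃ ξ : E →ₗ[ℝ] ℝ, (∀ i ∈ I, ξ (v i) = w i) ∧ ∀ j, j ∉ I → ξ (v j) < w j

/-- The points in the span of fewer than `dim E` of the vectors. -/
def Nul (v : ι → E) : Set E :=
  ⋃ J ∈ {J : Finset ι | J.card < finrank ℝ E}, (Submodule.span ℝ (v '' (J : Set ι)) : Set E)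

/-- Genericity of the costs. -/
def Gen (v : ι → E) (w : ι → ℝ) : Prop :=
  ∀ J : Finset ι, finrank ℝ E < J.card → ¬ ∃ ξ : E →ₗ[ℝ] ℝ, ∀ i ∈ J, ξ (v i) = w i

lemma mem_span_of_supp {v : ι → E} {c : ι → ℝ} {J : Finset ι} (h : ∀ i, i ∉ J → c i = 0) :
    ∑ i, c i • v i ∈ Submodule.span ℝ (v '' (J : Set ι)) := by
  apply Submodule.sum_mem
  intro i _
  by_cases hi : i ∈ J
  · exact Submodule.smul_mem _ _ (Submodule.subset_span ⟨i, hi, rfl⟩)
  · rw [h i hi, zero_smul]
    exact Submodule.zero_mem _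

lemma cell_inter [DecidableEq ι] {a : ι → ℝ} {v : ι → E} {w : ι → ℝ} (ha : ∀ i, 0 < a i)
    {I J : Finset ι} (hI : IsFacet v w I) (hJ : IsFacet v w J) (hne : I ≠ J) :
    cell I a v w ∩ cell J a v w ⊆ Nul v := by
  rintro y ⟨⟨c, hc0, hcI, _, hcy⟩, ⟨e, he0, heJ, _, hey⟩⟩
  obtain ⟨_, hIc, ξ, hξI, hξ⟩ := hI
  obtain ⟨_, hJc, η, hηJ, hη⟩ := hJ
  have hξle : ∀ i, ξ (v i) ≤ w i := fun i => by
    by_cases hi : i ∈ I
    · exact (hξI i hi).le
    · exact (hξ i hi).le
  have hηle : ∀ i, η (v i) ≤ w i := fun i => by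
    by_cases hi : i ∈ J
    · exact (hηJ i hi).le
    · exact (hη i hi).le
  have h1 : ξ y = ∑ i, c i * a i * w i := by
    rw [hcy, map_sum]
    refine sum_congr rfl fun i _ => ?_
    rw [map_smul, smul_eq_mul]
    by_cases hi : i ∈ I
    · rw [hξI i hi]
    · rw [hcI i hi]; ring
  have h2 : ξ y = ∑ i, e i * a i * ξ (v i) := by
    rw [hey, map_sum]
    exact sum_congr rfl fun i _ => by rw [map_smul, smul_eq_mul]
  have h3 : η y = ∑ i, e i * a i * w i := by
    rw [hey, map_sum]
    refine sum_congr rfl fun i _ => ?_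
    rw [map_smul, smul_eq_mul]
    by_cases hi : i ∈ J
    · rw [hηJ i hi]
    · rw [heJ i hi]; ring
  have h4 : η y = ∑ i, c i * a i * η (v i) := by
    rw [hcy, map_sum]
    exact sum_congr rfl fun i _ => by rw [map_smul, smul_eq_mul]
  have h5 : η y ≤ ξ y := by
    rw [h4, h1]
    refine sum_le_sum fun i _ => ?_
    exact mul_le_mul_of_nonneg_left (hηle i) (mul_nonneg (hc0 i) (ha i).le)
  have h6 : ∑ i, e i * a i * (w i - ξ (v i)) ≤ 0 := by
    have : ∑ i, e i * a i * (w i - ξ (v i)) = η y - ξ y := by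
      rw [h3, h2, ← sum_sub_distrib]
      exact sum_congr rfl fun i _ => by ring
    linarith
  have h7 : ∀ i ∈ (univ : Finset ι), 0 ≤ e i * a i * (w i - ξ (v i)) := fun i _ =>
    mul_nonneg (mul_nonneg (he0 i) (ha i).le) (sub_nonneg.mpr (hξle i))
  have h8 : ∀ i ∈ (univ : Finset ι), e i * a i * (w i - ξ (v i)) = 0 :=
    (sum_eq_zero_iff_of_nonneg h7).mp (le_antisymm h6 (sum_nonneg h7))
  have h9 : ∀ i, i ∉ I ∩ J → e i = 0 := by
    intro i hi
    by_cases hJ' : i ∈ J
    · have hI' : i ∉ I := fun h => hi (mem_inter.mpr ⟨h, hJ'⟩)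
      have h10 := h8 i (mem_univ i)
      have h11 : 0 < w i - ξ (v i) := sub_pos.mpr (hξ i hI')
      rcases mul_eq_zero.mp h10 with h12 | h12
      · rcases mul_eq_zero.mp h12 with h13 | h13
        · exact h13
        · exact absurd h13 (ha i).ne'
      · exact absurd h12 h11.ne'
    · exact heJ i hJ'
  have hcard : (I ∩ J).card < finrank ℝ E := by
    rw [← hIc]
    apply card_lt_card
    refine ⟨inter_subset_left, fun hsub => hne ?_⟩
    have hIJ : I ⊆ J := fun i hi => (mem_inter.mp (hsub hi)).2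
    exact eq_of_subset_of_card_le hIJ (by rw [hIc, hJc])
  simp only [Nul, Set.mem_iUnion]
  refine ⟨I ∩ J, hcard, ?_⟩
  rw [hey]
  exact mem_span_of_supp (c := fun i => e i * a i) fun i hi => by rw [h9 i hi, zero_mul]

section minimiser

/-- The set of admissible coefficients. -/
def Adm (v : ι → E) (w : ι → ℝ) (y : E) : Set (ι → ℝ) :=
  {c | (∀ i, 0 ≤ c i) ∧ ∑ i, c i • v i = y ∧ ∑ i, c i * w i ≤ 1}

lemma isCompact_Adm (v : ι → E) {w : ι → ℝ} (hw : ∀ i, 0 < w i) (y : E) :
    IsCompact (Adm v w y) := by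
  have hcl : IsClosed (Adm v w y) := by
    unfold Adm
    simp only [Set.ofPred_and]
    refine IsClosed.inter ?_ (IsClosed.inter ?_ ?_)
    · rw [Set.ofPred_forall]
      exact isClosed_iInter fun i => isClosed_le continuous_const (continuous_apply i)
    · exact isClosed_eq (by fun_prop) continuous_const
    · exact isClosed_le (by fun_prop) continuous_const
  refine (isCompact_Icc (a := (0 : ι → ℝ)) (b := fun i => (w i)⁻¹)).of_isClosed_subset hcl ?_
  rintro c ⟨h0, _, h1⟩
  refine ⟨fun i => h0 i, fun i => ?_⟩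
  have h2 : c i * w i ≤ ∑ i, c i * w i :=
    single_le_sum (f := fun i => c i * w i) (fun j _ => mul_nonneg (h0 j) (hw j).le) (mem_univ i)
  show c i ≤ (w i)⁻¹
  rw [← one_div, le_div_iff₀ (hw i)]
  linarith

lemma exists_min (v : ι → E) {w : ι → ℝ} (hw : ∀ i, 0 < w i) {y : E}
    (hne : (Adm v w y).Nonempty) :
    ∃ c ∈ Adm v w y, (∀ e ∈ Adm v w y, ∑ i, c i * w i ≤ ∑ i, e i * w i) ∧
      ∀ e ∈ Adm v w y, ∑ i, e i * w i = ∑ i, c i * w i →
        (univ.filter fun i => c i ≠ 0).card ≤ (univ.filter fun i => e i ≠ 0).card := by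
  classical
  obtain ⟨c₀, hc₀, hmin⟩ := (isCompact_Adm v hw y).exists_isMinOn hne
    (f := fun c : ι → ℝ => ∑ i, c i * w i) (by fun_prop)
  have hmin' : ∀ e ∈ Adm v w y, ∑ i, c₀ i * w i ≤ ∑ i, e i * w i := fun e he => hmin he
  let P : ℕ → Prop := fun k => ∃ c ∈ Adm v w y, ∑ i, c i * w i = ∑ i, c₀ i * w i ∧
    (univ.filter fun i => c i ≠ 0).card = k
  have hP : ∃ k, P k := ⟨_, c₀, hc₀, rfl, rfl⟩
  obtain ⟨c, hc, hc1, hc2⟩ := Nat.find_spec hP
  refine ⟨c, hc, fun e he => by rw [hc1]; exact hmin' e he, fun e he h => ?_⟩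
  rw [hc2]
  exact Nat.find_min' hP ⟨e, he, by rw [h, hc1], rfl⟩

end minimiser

lemma cover [DecidableEq ι] [FiniteDimensional ℝ E] {v : ι → E} {w : ι → ℝ} (hw : ∀ i, 0 < w i)
    (hg : Gen v w) {y : E} (hy : y ∈ T (fun _ => 1) v w) (hN : y ∉ Nul v) :
    ∃ I : Finset ι, IsFacet v w I ∧ y ∈ cell I (fun _ => 1) v w := by
  have hne : (Adm v w y).Nonempty := by
    obtain ⟨c, h0, h1, h2⟩ := hy
    exact ⟨c, h0, by rw [h2]; simp, h1⟩
  obtain ⟨c, ⟨hc0, hcy, hc1⟩, hmin, hsupp⟩ := exists_min v hw hne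
  set I : Finset ι := univ.filter fun i => c i ≠ 0 with hI
  have hcI : ∀ i, i ∉ I → c i = 0 := fun i hi => by
    by_contra h
    exact hi (by simp [hI, h])
  have hcpos : ∀ i ∈ I, 0 < c i := fun i hi =>
    lt_of_le_of_ne (hc0 i) (Ne.symm (mem_filter.mp hi).2)
  -- linear independence
  have hind : LinearIndepOn ℝ v (I : Set ι) := by
    rw [linearIndepOn_finset_iff]
    by_contra hcon
    push Not at hcon
    obtain ⟨f, hf, i₀, hi₀, hfi₀⟩ := hcon
    -- choose the sign
    obtain ⟨g, hg0, hgoff, hgne, hgw⟩ : ∃ g : ι → ℝ, ∑ i, g i • v i = 0 ∧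
        (∀ i, i ∉ I → g i = 0) ∧ (∃ i, g i ≠ 0) ∧ 0 ≤ ∑ i, g i * w i := by
      let g₁ : ι → ℝ := fun i => if i ∈ I then f i else 0
      have hg₁ : ∑ i, g₁ i • v i = 0 := by
        rw [← hf]
        simp only [g₁, ite_smul, zero_smul]
        rw [sum_ite_mem, univ_inter]
      have hoff : ∀ i, i ∉ I → g₁ i = 0 := fun i hi => by simp [g₁, hi]
      have hne1 : g₁ i₀ ≠ 0 := by simp [g₁, hi₀, hfi₀]
      rcases le_total 0 (∑ i, g₁ i * w i) with h | h
      · exact ⟨g₁, hg₁, hoff, ⟨i₀, hne1⟩, h⟩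
      · refine ⟨fun i => -g₁ i, ?_, fun i hi => by simp [hoff i hi], ⟨i₀, by simpa using hne1⟩, ?_⟩
        · simp only [neg_smul, sum_neg_distrib, hg₁, neg_zero]
        · simp only [neg_mul, sum_neg_distrib]
          linarith
    have hpos : ∃ i, 0 < g i := by
      by_contra hcon
      push Not at hcon
      obtain ⟨i, hi⟩ := hgne
      have h1 : g i < 0 := lt_of_le_of_ne (hcon i) hi
      have h2 : ∑ i, g i * w i < ∑ _i : ι, (0 : ℝ) :=
        sum_lt_sum (fun k _ => mul_nonpos_of_nonpos_of_nonneg (hcon k) (hw k).le)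
          ⟨i, mem_univ i, mul_neg_of_neg_of_pos h1 (hw i)⟩
      rw [sum_const_zero] at h2
      linarith
    obtain ⟨i₁, hi₁⟩ := hpos
    set F : Finset ι := univ.filter fun i => 0 < g i with hF
    have hFne : F.Nonempty := ⟨i₁, by simp [hF, hi₁]⟩
    obtain ⟨k, hk, hkmin⟩ := F.exists_min_image (fun i => c i / g i) hFne
    have hgk : 0 < g k := (mem_filter.mp hk).2
    have hkI : k ∈ I := by
      by_contra h
      rw [hgoff k h] at hgk
      exact lt_irrefl _ hgk
    set t : ℝ := c k / g k with ht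
    have ht0 : 0 < t := div_pos (hcpos k hkI) hgk
    have he0 : ∀ i, 0 ≤ c i - t * g i := by
      intro i
      rcases lt_or_ge 0 (g i) with h | h
      · have h1 := hkmin i (by simp [hF, h])
        have h2 : t * g i ≤ c i := by
          rw [le_div_iff₀ h] at h1
          exact h1
        linarith
      · have := mul_nonneg_of_nonpos_of_nonpos (neg_nonpos.mpr ht0.le) h
        linarith [hc0 i]
    have hecost : ∑ i, (c i - t * g i) * w i = ∑ i, c i * w i - t * ∑ i, g i * w i := by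
      rw [mul_sum, ← sum_sub_distrib]
      exact sum_congr rfl fun i _ => by ring
    have he : (fun i => c i - t * g i) ∈ Adm v w y := by
      refine ⟨he0, ?_, ?_⟩
      · simp only [sub_smul, sum_sub_distrib, mul_smul, ← smul_sum, hg0, smul_zero, sub_zero]
        exact hcy
      · rw [hecost]
        have := mul_nonneg ht0.le hgw
        linarith
    have h1 := hmin _ he
    have h2 : ∑ i, (c i - t * g i) * w i = ∑ i, c i * w i := by
      apply le_antisymm _ h1
      rw [hecost]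
      have := mul_nonneg ht0.le hgw
      linarith
    have h3 := hsupp _ he h2
    have h4 : (univ.filter fun i => c i - t * g i ≠ 0) ⊆ I.erase k := by
      intro i hi
      have hi' := (mem_filter.mp hi).2
      rw [mem_erase]
      refine ⟨?_, ?_⟩
      · rintro rfl
        apply hi'
        rw [ht, div_mul_cancel₀ _ hgk.ne', sub_self]
      · by_contra h
        apply hi'
        rw [hcI i h, hgoff i h]
        ring
    have h5 := card_le_card h4
    rw [card_erase_of_mem hkI] at h5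
    have h6 : 0 < I.card := card_pos.mpr ⟨k, hkI⟩
    omega
  -- the number of vectors
  have hcard : I.card = finrank ℝ E := by
    apply le_antisymm
    · have := hind.linearIndependent.fintype_card_le_finrank
      simpa using this
    · by_contra h
      push Not at h
      apply hN
      simp only [Nul, Set.mem_iUnion]
      refine ⟨I, h, ?_⟩
      rw [← hcy]
      exact mem_span_of_supp hcI
  -- the basis
  have hspan : ⊤ ≤ Submodule.span ℝ (Set.range fun i : I => v i) := by
    have := hind.linearIndependent.span_eq_top_of_card_eq_finrank' (by simpa using hcard)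
    exact this.ge
  let b : Basis I ℝ E := Basis.mk hind.linearIndependent hspan
  have hb : ∀ i : I, b i = v i := fun i => by simp [b]
  let ξ : E →ₗ[ℝ] ℝ := b.constr ℝ fun i => w i
  have hξ : ∀ i ∈ I, ξ (v i) = w i := fun i hi => by
    have := b.constr_basis ℝ (fun i : I => w i) ⟨i, hi⟩
    rwa [hb] at this
  refine ⟨I, ⟨hind, hcard, ξ, hξ, fun j hj => ?_⟩, c, hc0, hcI, hc1, by rw [← hcy]; simp⟩
  have hne' : ξ (v j) ≠ w j := by
    intro h
    refine hg (insert j I) (by rw [card_insert_of_notMem hj]; omega) ⟨ξ, fun i hi => ?_⟩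
    rcases mem_insert.mp hi with rfl | hi
    · exact h
    · exact hξ i hi
  by_contra hcon
  push Not at hcon
  have hgt : w j < ξ (v j) := lt_of_le_of_ne hcon hne'.symm
  let α : ι → ℝ := fun i => if h : i ∈ I then b.repr (v j) ⟨i, h⟩ else 0
  have hα : ∑ i, α i • v i = v j := by
    have h1 : ∑ i, α i • v i = ∑ i ∈ I, α i • v i :=
      (sum_subset (subset_univ I) (fun i _ hi => by simp [α, hi])).symm
    rw [h1, ← sum_coe_sort I (fun i => α i • v i), ← b.sum_repr (v j)]
    refine sum_congr rfl fun x _ => ?_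
    rw [hb]
    simp [α]
  have hαw : ∑ i, α i * w i = ξ (v j) := by
    rw [← hα, map_sum]
    refine sum_congr rfl fun i _ => ?_
    rw [map_smul, smul_eq_mul]
    by_cases hi : i ∈ I
    · rw [hξ i hi]
    · simp [α, hi]
  obtain ⟨t, ht, ht0⟩ : ∃ t : ℝ, (∀ i, 0 ≤ c i - t * α i) ∧ t ∈ Set.Ioi (0 : ℝ) := by
    have h1 : ∀ᶠ t : ℝ in nhdsWithin 0 (Set.Ioi 0), ∀ i, 0 ≤ c i - t * α i := by
      rw [Filter.eventually_all]
      intro i
      by_cases hi : i ∈ I
      · have h2 : Filter.Tendsto (fun t : ℝ => c i - t * α i) (nhds 0) (nhds (c i - 0 * α i)) := by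
          apply Continuous.tendsto
          fun_prop
        rw [zero_mul, sub_zero] at h2
        have h3 := (h2.mono_left (nhdsWithin_le_nhds (s := Set.Ioi (0 : ℝ)))).eventually_const_lt
          (hcpos i hi)
        exact h3.mono fun t ht => ht.le
      · refine Filter.Eventually.of_forall fun t => ?_
        simp [α, hi, hc0 i]
    exact (h1.and self_mem_nhdsWithin).exists
  have ht0 : 0 < t := ht0
  have h3 := mul_neg_of_pos_of_neg ht0 (sub_neg.mpr hgt)
  have h2 : ∑ i, (c i - t * α i + if i = j then t else 0) * w i =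
      ∑ i, c i * w i + t * (w j - ξ (v j)) := by
    have h4 : ∑ i, (if i = j then t else 0) * w i = t * w j := by
      simp [ite_mul]
    rw [← hαw, mul_sub, mul_sum, ← h4]
    simp only [add_mul, sub_mul, sum_add_distrib, sum_sub_distrib, mul_assoc]
    ring
  have he : (fun i => c i - t * α i + if i = j then t else 0) ∈ Adm v w y := by
    refine ⟨fun i => ?_, ?_, ?_⟩
    · have h4 := ht i
      have h5 : (0 : ℝ) ≤ if i = j then t else 0 := by
        split_ifs
        · exact ht0.le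
        · exact le_rfl
      linarith
    · have h4 : ∑ i, (if i = j then t else 0) • v i = t • v j := by
        simp [ite_smul]
      simp only [add_smul, sub_smul, sum_add_distrib, sum_sub_distrib, mul_smul, ← smul_sum, hα,
        h4, hcy]
      abel
    · show ∑ i, (c i - t * α i + if i = j then t else 0) * w i ≤ 1
      rw [h2]
      linarith
  have h1 := hmin _ he
  rw [h2] at h1
  linarith

end Pool.Agent.Lib.MP_725e58_gt
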