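import Pool.Agent.Lib.MP_725e58_gt.Vol

/-! From finitely many points to arbitrary sets. -/

namespace Pool.Agent.Lib.MP_725e58_gt

open MeasureTheory Module Finset Topology
open scoped Pointwise

variable {E : Type*} [NormedAddCommGroup E] [NormedSpace ℝ E]

lemma sum_mem_of_le_one {M : Set E} (hM : Convex ℝ M) (h0 : (0 : E) ∈ M) {ι : Type*} [Fintype ι]
    {c : ι → ℝ} {x : ι → E} (hc : ∀ i, 0 ≤ c i) (h1 : ∑ i, c i ≤ 1) (hx : ∀ i, x i ∈ M) :
    ∑ i, c i • x i ∈ M := by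
  have hs : 0 ≤ ∑ i, c i := sum_nonneg fun i _ => hc i
  rcases hs.eq_or_lt with h | h
  · have h2 : ∀ i ∈ univ, c i = 0 := (sum_eq_zero_iff_of_nonneg fun i _ => hc i).mp h.symm
    have h3 : ∑ i, c i • x i = 0 := sum_eq_zero fun i hi => by rw [h2 i hi, zero_smul]
    rw [h3]
    exact h0
  · have h2 : ∑ i, (c i / ∑ j, c j) • x i ∈ M := by
      refine hM.sum_mem (fun i _ => div_nonneg (hc i) hs) ?_ fun i _ => hx i
      rw [← sum_div, div_self h.ne']
    have h3 := hM.smul_mem_of_zero_mem h0 h2 ⟨hs, h1⟩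
    convert h3 using 1
    rw [smul_sum]
    refine sum_congr rfl fun i _ => ?_
    rw [smul_smul]
    congr 1
    field_simp

lemma exists_finset_cover [FiniteDimensional ℝ E] {G Q : Set E} (hQ : IsCompact Q)
    (hsub : Q ⊆ interior (convexHull ℝ G)) :
    ∃ V : Finset E, (V : Set E) ⊆ G ∧ Q ⊆ convexHull ℝ (V : Set E) := by
  classical
  have h1 : ∀ y ∈ Q, ∃ V : Finset E, (V : Set E) ⊆ G ∧
      y ∈ interior (convexHull ℝ (V : Set E)) := by
    intro y hy
    obtain ⟨b, hb1, hb2⟩ := exists_mem_interior_convexHull_affineBasis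
      (mem_interior_iff_mem_nhds.mp (hsub hy))
    have h2 : ∀ i, ∃ W : Finset E, (W : Set E) ⊆ G ∧ b i ∈ convexHull ℝ (W : Set E) := by
      intro i
      have h3 : b i ∈ convexHull ℝ G := hb2 (subset_convexHull ℝ _ ⟨i, rfl⟩)
      rw [convexHull_eq_union_convexHull_finite_subsets] at h3
      simp only [Set.mem_iUnion] at h3
      obtain ⟨W, hW1, hW2⟩ := h3
      exact ⟨W, hW1, hW2⟩
    choose W hW1 hW2 using h2
    refine ⟨univ.biUnion W, ?_, ?_⟩
    · rw [coe_biUnion]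
      exact Set.iUnion₂_subset fun i _ => hW1 i
    · refine interior_mono ?_ hb1
      apply convexHull_min _ (convex_convexHull ℝ _)
      rintro _ ⟨i, rfl⟩
      refine convexHull_mono ?_ (hW2 i)
      rw [coe_biUnion]
      exact Set.subset_biUnion_of_mem (u := fun i => (W i : Set E)) (mem_coe.mpr (mem_univ i))
  choose! V hV1 hV2 using h1
  obtain ⟨t, ht, htQ⟩ := hQ.elim_nhds_subcover (fun y => interior (convexHull ℝ (V y : Set E)))
    fun y hy => isOpen_interior.mem_nhds (hV2 y hy)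
  refine ⟨t.biUnion V, ?_, fun y hy => ?_⟩
  · rw [coe_biUnion]
    exact Set.iUnion₂_subset fun y hy => hV1 y (ht y hy)
  · have h2 := htQ hy
    simp only [Set.mem_iUnion] at h2
    obtain ⟨z, hz, hyz⟩ := h2
    refine convexHull_mono ?_ (interior_subset hyz)
    rw [coe_biUnion]
    exact Set.subset_biUnion_of_mem (u := fun i => (V i : Set E)) hz

variable [FiniteDimensional ℝ E] [MeasurableSpace E] [BorelSpace E] (μ : Measure E)
  [μ.IsAddHaarMeasure]

lemma fin_le {M : Set E} (hM : Convex ℝ M) {Λ : Set ℝ} (hΛ : ∀ l ∈ Λ, 0 < l) {κ : ℝ}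
    (hκ : ∀ m : Multiset ℝ, (∀ l ∈ m, l ∈ Λ) → m.card = finrank ℝ E →
      κ ≤ m.prod + (m.map fun l => l⁻¹).prod) (V : Finset E)
    (hV : ∀ y ∈ V, ∃ l ∈ Λ, l • y ∈ M ∧ -(l⁻¹ • y) ∈ M) :
    ENNReal.ofReal κ * μ (convexHull ℝ (V : Set E)) ≤ 2 * μ M := by
  classical
  rcases V.eq_empty_or_nonempty with rfl | ⟨y₀, hy₀⟩
  · simp
  have h0 : (0 : E) ∈ M := by
    obtain ⟨l, hl, h1, h2⟩ := hV y₀ hy₀
    have hl0 := hΛ l hl
    have h3 := hM h1 h2 (a := l⁻¹ / (l + l⁻¹)) (b := l / (l + l⁻¹)) (by positivity)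
      (by positivity) (by field_simp; ring)
    convert h3 using 1
    rw [smul_smul, smul_neg, smul_smul, ← sub_eq_add_neg, ← sub_smul]
    have : l⁻¹ / (l + l⁻¹) * l - l / (l + l⁻¹) * l⁻¹ = 0 := by ring
    rw [this, zero_smul]
  have hV' : ∀ y : V, ∃ l ∈ Λ, l • (y : E) ∈ M ∧ -(l⁻¹ • (y : E)) ∈ M := fun y => hV y y.2
  choose a haΛ ha1 ha2 using hV'
  have ha : ∀ y, 0 < a y := fun y => hΛ _ (haΛ y)
  have h1 := main_fin μ (fun y : V => (y : E)) ha (κ := κ) (by
    intro I hI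
    have h2 := hκ (I.val.map a) (by
      intro l hl
      obtain ⟨y, _, rfl⟩ := Multiset.mem_map.mp hl
      exact haΛ y) (by rw [Multiset.card_map]; exact hI)
    rw [Multiset.map_map] at h2
    exact h2)
  have h2 : convexHull ℝ (V : Set E) ⊆ T (fun _ => 1) (fun y : V => (y : E)) (fun _ => 1) := by
    intro y hy
    rw [Finset.mem_convexHull'] at hy
    obtain ⟨c, hc0, hc1, hcy⟩ := hy
    refine ⟨fun z => c z, fun z => hc0 z z.2, ?_, ?_⟩
    · simp only [mul_one]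
      rw [sum_coe_sort V c, hc1]
    · simp only [mul_one]
      rw [sum_coe_sort V fun z => c z • z, hcy]
  have h3 : T a (fun y : V => (y : E)) (fun _ => 1) ⊆ M := by
    rintro y ⟨c, hc0, hc1, rfl⟩
    simp only [mul_one] at hc1
    have := sum_mem_of_le_one hM h0 hc0 hc1 ha1
    simp only [smul_smul] at this
    exact this
  have h4 : T (fun y => (a y)⁻¹) (fun y : V => (y : E)) (fun _ => 1) ⊆ (-1 : ℝ) • M := by
    rintro y ⟨c, hc0, hc1, rfl⟩
    simp only [mul_one] at hc1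
    have := sum_mem_of_le_one hM h0 hc0 hc1 ha2
    rw [Set.mem_smul_set]
    refine ⟨_, this, ?_⟩
    rw [smul_sum]
    refine sum_congr rfl fun i _ => ?_
    rw [smul_neg, smul_neg, neg_one_smul, neg_neg, smul_smul]
  have h5 : μ ((-1 : ℝ) • M) = μ M := by
    rw [Measure.addHaar_smul]
    simp
  calc ENNReal.ofReal κ * μ (convexHull ℝ (V : Set E))
      ≤ ENNReal.ofReal κ * μ (T (fun _ => 1) (fun y : V => (y : E)) (fun _ => 1)) := by
        gcongr
    _ ≤ μ (T a (fun y : V => (y : E)) (fun _ => 1)) +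
        μ (T (fun y => (a y)⁻¹) (fun y : V => (y : E)) (fun _ => 1)) := h1
    _ ≤ μ M + μ ((-1 : ℝ) • M) := by gcongr
    _ = 2 * μ M := by rw [h5, two_mul]

theorem hull_le {M : Set E} (hM : Convex ℝ M) {Λ : Set ℝ} (hΛ : ∀ l ∈ Λ, 0 < l) {κ : ℝ}
    (hκ : ∀ m : Multiset ℝ, (∀ l ∈ m, l ∈ Λ) → m.card = finrank ℝ E →
      κ ≤ m.prod + (m.map fun l => l⁻¹).prod) (G : Set E)
    (hG : ∀ y ∈ G, ∃ l ∈ Λ, l • y ∈ M ∧ -(l⁻¹ • y) ∈ M) :
    ENNReal.ofReal κ * μ (convexHull ℝ G) ≤ 2 * μ M := by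
  have h1 : μ (convexHull ℝ G) = μ (interior (convexHull ℝ G)) := by
    apply le_antisymm _ (measure_mono interior_subset)
    have h2 : convexHull ℝ G ⊆ interior (convexHull ℝ G) ∪ frontier (convexHull ℝ G) := by
      intro y hy
      by_cases h : y ∈ interior (convexHull ℝ G)
      · exact Or.inl h
      · exact Or.inr ⟨subset_closure hy, h⟩
    calc μ (convexHull ℝ G) ≤ μ (interior (convexHull ℝ G) ∪ frontier (convexHull ℝ G)) :=
          measure_mono h2
      _ ≤ μ (interior (convexHull ℝ G)) + μ (frontier (convexHull ℝ G)) := measure_union_le _ _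
      _ = μ (interior (convexHull ℝ G)) := by
        rw [Convex.addHaar_frontier μ (convex_convexHull ℝ G), add_zero]
  rw [h1, isOpen_interior.measure_eq_iSup_isCompact, ENNReal.mul_iSup]
  refine iSup_le fun Q => ?_
  rw [ENNReal.mul_iSup]
  refine iSup_le fun hQ => ?_
  rw [ENNReal.mul_iSup]
  refine iSup_le fun hQc => ?_
  obtain ⟨V, hV1, hV2⟩ := exists_finset_cover hQc hQ
  calc ENNReal.ofReal κ * μ Q ≤ ENNReal.ofReal κ * μ (convexHull ℝ (V : Set E)) := by
        gcongr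
    _ ≤ 2 * μ M := fin_le μ hM hΛ hκ V fun y hy => hG y (hV1 hy)

end Pool.Agent.Lib.MP_725e58_gt
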