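import Pool.Agent.Lib.MP_725e58_gt.Hull

/-! The reflection body about a point: the general inequality and the bound by the asymmetry. -/

namespace Pool.Agent.Lib.MP_725e58_gt

open MeasureTheory Module Finset Topology
open scoped Pointwise

variable {E : Type*} [NormedAddCommGroup E] [NormedSpace ℝ E]

variable [FiniteDimensional ℝ E] [MeasurableSpace E] [BorelSpace E] (μ : Measure E)
  [μ.IsAddHaarMeasure]

theorem refl_le {M : Set E} (hM : Convex ℝ M) {Λ : Set ℝ} (hΛ : ∀ l ∈ Λ, 0 < l)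
    (hinv : ∀ l ∈ Λ, l⁻¹ ∈ Λ) {κ : ℝ}
    (hκ : ∀ m : Multiset ℝ, (∀ l ∈ m, l ∈ Λ) → m.card = finrank ℝ E →
      κ ≤ m.prod + (m.map fun l => l⁻¹).prod) (K : Set E) (x : E)
    (hK : ∀ y ∈ K, ∃ l ∈ Λ, x + l • (y - x) ∈ M ∧ x - l⁻¹ • (y - x) ∈ M) :
    ENNReal.ofReal κ * μ (convexHull ℝ (K ∪ (fun y => (2 : ℝ) • x - y) '' K)) ≤ 2 * μ M := by
  have hM' : Convex ℝ ((-x) +ᵥ M) := hM.vadd (-x)
  have h := hull_le μ hM' hΛ hκ ((-x) +ᵥ (K ∪ (fun y => (2 : ℝ) • x - y) '' K)) (by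
    intro y hy
    rw [Set.mem_vadd_set] at hy
    obtain ⟨z, hz, rfl⟩ := hy
    rcases hz with hz | ⟨w, hw, rfl⟩
    · obtain ⟨l, hl, h1, h2⟩ := hK z hz
      refine ⟨l, hl, ?_, ?_⟩
      · refine Set.mem_vadd_set.mpr ⟨_, h1, ?_⟩
        rw [vadd_eq_add, vadd_eq_add]
        module
      · refine Set.mem_vadd_set.mpr ⟨_, h2, ?_⟩
        rw [vadd_eq_add, vadd_eq_add]
        module
    · obtain ⟨l, hl, h1, h2⟩ := hK w hw
      refine ⟨l⁻¹, hinv l hl, ?_, ?_⟩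
      · refine Set.mem_vadd_set.mpr ⟨_, h2, ?_⟩
        rw [vadd_eq_add, vadd_eq_add]
        module
      · refine Set.mem_vadd_set.mpr ⟨_, h1, ?_⟩
        rw [vadd_eq_add, vadd_eq_add, inv_inv]
        module)
  rw [convexHull_vadd, measure_vadd, measure_vadd] at h
  exact h

theorem refl_le_one {M : Set E} (hM : Convex ℝ M) (K : Set E) (x : E)
    (hK : ∀ y ∈ K, ∃ a : ℝ, 0 < a ∧ x + a • (y - x) ∈ M ∧ x - a⁻¹ • (y - x) ∈ M) :
    μ (convexHull ℝ (K ∪ (fun y => (2 : ℝ) • x - y) '' K)) ≤ μ M := by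
  have h := refl_le μ hM (Λ := Set.Ioi 0) (fun l hl => hl)
    (fun l hl => Set.mem_Ioi.mpr (inv_pos.mpr (Set.mem_Ioi.mp hl))) (κ := 2)
    (by
      intro m hm _
      have h1 : 0 < m.prod := by
        refine Multiset.prod_induction (fun r : ℝ => 0 < r) m (fun a b => mul_pos) one_pos hm
      rw [Multiset.prod_map_inv]
      have h2 : 0 ≤ (m.prod - 1) ^ 2 / m.prod := by positivity
      have h3 : (m.prod - 1) ^ 2 / m.prod = m.prod + m.prod⁻¹ - 2 := by field_simp; ring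
      rw [Multiset.map_id']
      linarith) K x (by
      intro y hy
      obtain ⟨a, ha, h1, h2⟩ := hK y hy
      exact ⟨a, ha, h1, h2⟩)
  rw [show ENNReal.ofReal 2 = 2 by simp] at h
  exact (ENNReal.mul_le_mul_iff_right (by simp) (by simp)).mp h

lemma prod_two {t : ℝ} (ht : 0 < t) (m : Multiset ℝ) (hm : ∀ l ∈ m, l = t ∨ l = t⁻¹) :
    ∃ k : ℤ, k % 2 = (m.card : ℤ) % 2 ∧ m.prod = t ^ k := by
  induction m using Multiset.induction_on with
  | empty => exact ⟨0, by simp⟩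
  | cons a m ih =>
    obtain ⟨k, hk1, hk2⟩ := ih fun l hl => hm l (Multiset.mem_cons_of_mem hl)
    rw [Multiset.prod_cons, hk2, Multiset.card_cons]
    rcases hm a (Multiset.mem_cons_self a m) with h | h
    · refine ⟨k + 1, by push_cast; omega, ?_⟩
      rw [zpow_add_one₀ ht.ne', h, mul_comm]
    · refine ⟨k - 1, by push_cast; omega, ?_⟩
      rw [zpow_sub_one₀ ht.ne', h, mul_comm]

lemma add_inv_le {t u : ℝ} (ht : 1 ≤ t) (hu : t ≤ u) : t + t⁻¹ ≤ u + u⁻¹ := by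
  have h0 : 0 < t := by linarith
  have h1 : 0 < u := by linarith
  have h2 : u + u⁻¹ - (t + t⁻¹) = (u - t) * (t * u - 1) / (t * u) := by field_simp; ring
  have h3 : 0 ≤ (u - t) * (t * u - 1) / (t * u) := by
    apply div_nonneg (mul_nonneg (by linarith) (by nlinarith)) (by positivity)
  linarith

lemma odd_ge {t : ℝ} (ht : 1 ≤ t) (m : Multiset ℝ) (hm : ∀ l ∈ m, l = t ∨ l = t⁻¹)
    (hc : Odd m.card) : t + t⁻¹ ≤ m.prod + (m.map fun l => l⁻¹).prod := by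
  have h0 : 0 < t := by linarith
  obtain ⟨k, hk1, hk2⟩ := prod_two h0 m hm
  rw [Multiset.prod_map_inv, Multiset.map_id', hk2]
  have hk3 : k % 2 = 1 := by
    rw [hk1]
    exact_mod_cast Nat.odd_iff.mp hc
  rcases lt_or_ge k 0 with h | h
  · have h1 : t ≤ (t ^ k)⁻¹ := by
      rw [← zpow_neg]
      calc t = t ^ (1 : ℤ) := (zpow_one t).symm
        _ ≤ t ^ (-k) := zpow_le_zpow_right₀ ht (by omega)
    have h2 := add_inv_le ht h1
    rw [inv_inv] at h2
    linarith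
  · have h1 : t ≤ t ^ k := by
      calc t = t ^ (1 : ℤ) := (zpow_one t).symm
        _ ≤ t ^ k := zpow_le_zpow_right₀ ht (by omega)
    exact add_inv_le ht h1

section Asym

variable {K : Set E} (hK : Convex ℝ K) {m : ℝ} (hm : 0 < m) {x : E}
  (hx : ∀ y ∈ K, x + m⁻¹ • (x - y) ∈ K)

include hm hx in
omit [FiniteDimensional ℝ E] [MeasurableSpace E] [BorelSpace E] in
lemma asym_mem : ∀ y ∈ K, x + √m • (y - x) ∈ (x +ᵥ (√m • ((-x) +ᵥ K))) ∧
    x - (√m)⁻¹ • (y - x) ∈ (x +ᵥ (√m • ((-x) +ᵥ K))) := by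
  intro y hy
  have hs : 0 < √m := Real.sqrt_pos.mpr hm
  constructor
  · refine Set.mem_vadd_set.mpr ⟨√m • (y - x), Set.smul_mem_smul_set
      (Set.mem_vadd_set.mpr ⟨y, hy, ?_⟩), rfl⟩
    rw [vadd_eq_add]
    abel
  · refine Set.mem_vadd_set.mpr ⟨√m • (m⁻¹ • (x - y)), Set.smul_mem_smul_set
      (Set.mem_vadd_set.mpr ⟨_, hx y hy, ?_⟩), ?_⟩
    · rw [vadd_eq_add]
      abel
    · have h1 : (√m)⁻¹ = √m * m⁻¹ := by
        field_simp
        exact (Real.sq_sqrt hm.le).symm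
      rw [vadd_eq_add, h1]
      module

include hK hm hx in
theorem asym_le : μ (convexHull ℝ (K ∪ (fun y => (2 : ℝ) • x - y) '' K)) ≤
    ENNReal.ofReal (√m ^ finrank ℝ E) * μ K := by
  have h := refl_le_one μ (M := x +ᵥ (√m • ((-x) +ᵥ K))) (((hK.vadd _).smul _).vadd _) K x (by
    intro y hy
    obtain ⟨h1, h2⟩ := asym_mem hm hx y hy
    exact ⟨√m, Real.sqrt_pos.mpr hm, h1, h2⟩)
  rw [measure_vadd, Measure.addHaar_smul, measure_vadd, abs_of_nonneg (by positivity)] at h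
  exact h

include hK hx in
theorem asym_le_odd (hm1 : 1 ≤ m) (hd : Odd (finrank ℝ E)) :
    ENNReal.ofReal (m + 1) * μ (convexHull ℝ (K ∪ (fun y => (2 : ℝ) • x - y) '' K)) ≤
    ENNReal.ofReal (2 * m ^ ((finrank ℝ E + 1) / 2)) * μ K := by
  have hm0 : 0 < m := by linarith
  have hs : 1 ≤ √m := Real.one_le_sqrt.mpr hm1
  have hs0 : 0 < √m := by linarith
  have h := refl_le μ (M := x +ᵥ (√m • ((-x) +ᵥ K))) (((hK.vadd _).smul _).vadd _)
    (Λ := {√m, (√m)⁻¹}) (by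
      rintro l (rfl | rfl)
      · exact hs0
      · exact inv_pos.mpr hs0) (by
      rintro l (rfl | rfl)
      · exact Or.inr rfl
      · exact Or.inl (inv_inv _)) (κ := √m + (√m)⁻¹) (by
      intro q hq hc
      exact odd_ge hs q hq (by rw [hc]; exact hd)) K x (by
      intro y hy
      obtain ⟨h1, h2⟩ := asym_mem hm0 hx y hy
      exact ⟨√m, Or.inl rfl, h1, h2⟩)
  rw [measure_vadd, Measure.addHaar_smul, measure_vadd, abs_of_nonneg (by positivity)] at h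
  have e1 : ENNReal.ofReal (m + 1) = ENNReal.ofReal (√m) * ENNReal.ofReal (√m + (√m)⁻¹) := by
    rw [← ENNReal.ofReal_mul hs0.le]
    congr 1
    rw [mul_add, Real.mul_self_sqrt hm0.le, mul_inv_cancel₀ hs0.ne']
  obtain ⟨n, hn⟩ := hd
  have e2 : ENNReal.ofReal (2 * m ^ ((finrank ℝ E + 1) / 2)) =
      ENNReal.ofReal (√m) * (2 * ENNReal.ofReal (√m ^ finrank ℝ E)) := by
    rw [show (2 : ENNReal) = ENNReal.ofReal 2 by simp, ← ENNReal.ofReal_mul (by norm_num),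
      ← ENNReal.ofReal_mul hs0.le]
    congr 1
    rw [hn, show (2 * n + 1 + 1) / 2 = n + 1 by omega]
    have : m ^ (n + 1) = (√m) ^ (2 * n + 1 + 1) := by
      rw [show 2 * n + 1 + 1 = 2 * (n + 1) by ring, pow_mul, Real.sq_sqrt hm0.le]
    rw [this]
    ring
  rw [e1, e2, mul_assoc, mul_assoc, mul_assoc]
  gcongr

end Asym

end Pool.Agent.Lib.MP_725e58_gt
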