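import Pool.Agent.Lib.MP_725e58_gt.Fan

/-! Volumes of the cells, generic costs, and the comparison for finitely many points. -/

namespace Pool.Agent.Lib.MP_725e58_gt

open MeasureTheory Module Finset
open scoped Pointwise

variable {E : Type*} [NormedAddCommGroup E] [NormedSpace ℝ E] [FiniteDimensional ℝ E]
  [MeasurableSpace E] [BorelSpace E] (μ : Measure E) [μ.IsAddHaarMeasure]
variable {ι : Type*} [Fintype ι]

lemma measure_Nul (v : ι → E) : μ (Nul v) = 0 := by
  unfold Nul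
  refine (measure_biUnion_null_iff (Set.to_countable _)).mpr fun J hJ => ?_
  refine Measure.addHaar_submodule μ _ fun h => ?_
  have h1 : finrank ℝ (Submodule.span ℝ (v '' (J : Set ι))) ≤ J.card := by
    classical
    have := finrank_span_finset_le_card (R := ℝ) (J.image v)
    rw [coe_image] at this
    exact this.trans card_image_le
  rw [h, finrank_top] at h1
  have h2 : J.card < finrank ℝ E := hJ
  omega

omit [FiniteDimensional ℝ E] [MeasurableSpace E] [BorelSpace E] in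
lemma isCompact_cell (I : Finset ι) (a : ι → ℝ) (v : ι → E) {w : ι → ℝ} (hw : ∀ i, 0 < w i) :
    IsCompact (cell I a v w) := by
  have hcl : IsClosed {c : ι → ℝ | (∀ i, 0 ≤ c i) ∧ (∀ i, i ∉ I → c i = 0) ∧
      ∑ i, c i * w i ≤ 1} := by
    simp only [Set.ofPred_and]
    refine IsClosed.inter ?_ (IsClosed.inter ?_ ?_)
    · rw [Set.ofPred_forall]
      exact isClosed_iInter fun i => isClosed_le continuous_const (continuous_apply i)
    · simp only [Set.ofPred_forall]
      exact isClosed_iInter fun i => isClosed_iInter fun _ =>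
        isClosed_eq (continuous_apply i) continuous_const
    · exact isClosed_le (by fun_prop) continuous_const
  have hc : IsCompact {c : ι → ℝ | (∀ i, 0 ≤ c i) ∧ (∀ i, i ∉ I → c i = 0) ∧
      ∑ i, c i * w i ≤ 1} := by
    refine (isCompact_Icc (a := (0 : ι → ℝ)) (b := fun i => (w i)⁻¹)).of_isClosed_subset hcl ?_
    rintro c ⟨h0, _, h1⟩
    refine ⟨fun i => h0 i, fun i => ?_⟩
    have h2 : c i * w i ≤ ∑ i, c i * w i :=
      single_le_sum (f := fun i => c i * w i) (fun j _ => mul_nonneg (h0 j) (hw j).le) (mem_univ i)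
    show c i ≤ (w i)⁻¹
    rw [← one_div, le_div_iff₀ (hw i)]
    linarith
  have himg := hc.image (f := fun c : ι → ℝ => ∑ i, (c i * a i) • v i) (by fun_prop)
  convert himg using 1
  ext y
  constructor
  · rintro ⟨c, h0, h1, h2, h3⟩
    exact ⟨c, ⟨h0, h1, h2⟩, h3.symm⟩
  · rintro ⟨c, ⟨h0, h1, h2⟩, h3⟩
    exact ⟨c, h0, h1, h2, h3.symm⟩

lemma measure_cell [DecidableEq ι] {I : Finset ι} {v : ι → E} (w : ι → ℝ)
    (hind : LinearIndepOn ℝ v (I : Set ι)) (hcard : I.card = finrank ℝ E) {a : ι → ℝ}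
    (ha : ∀ i, 0 < a i) :
    μ (cell I a v w) = ENNReal.ofReal (∏ i ∈ I, a i) * μ (cell I (fun _ => 1) v w) := by
  have hspan : ⊤ ≤ Submodule.span ℝ (Set.range fun i : I => v i) := by
    have := hind.linearIndependent.span_eq_top_of_card_eq_finrank' (by simpa using hcard)
    exact this.ge
  let b : Basis I ℝ E := Basis.mk hind.linearIndependent hspan
  have hb : ∀ i : I, b i = v i := fun i => by simp [b]
  let D : E →ₗ[ℝ] E := b.constr ℝ fun i => a i • v i
  have hD : ∀ i ∈ I, D (v i) = a i • v i := fun i hi => by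
    have := b.constr_basis ℝ (fun i : I => a i • v i) ⟨i, hi⟩
    rwa [hb] at this
  have hdet : LinearMap.det D = ∏ i ∈ I, a i := by
    rw [← LinearMap.det_toMatrix b]
    have h1 : LinearMap.toMatrix b b D = Matrix.diagonal fun i : I => a i := by
      ext i j
      rw [LinearMap.toMatrix_apply, hb, hD j j.2, ← hb, map_smul, b.repr_self]
      by_cases hij : i = j
      · subst hij
        simp
      · rw [Matrix.diagonal_apply_ne _ hij]
        simp [Ne.symm hij]
    rw [h1, Matrix.det_diagonal, prod_coe_sort I a]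
  have himg : cell I a v w = D '' cell I (fun _ => 1) v w := by
    have key : ∀ c : ι → ℝ, (∀ i, i ∉ I → c i = 0) →
        D (∑ i, (c i * 1) • v i) = ∑ i, (c i * a i) • v i := by
      intro c hc
      rw [map_sum]
      refine sum_congr rfl fun i _ => ?_
      by_cases hi : i ∈ I
      · rw [map_smul, hD i hi, mul_one, smul_smul]
      · simp [hc i hi]
    ext y
    constructor
    · rintro ⟨c, h0, h1, h2, rfl⟩
      exact ⟨_, ⟨c, h0, h1, h2, rfl⟩, key c h1⟩
    · rintro ⟨_, ⟨c, h0, h1, h2, rfl⟩, rfl⟩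
      exact ⟨c, h0, h1, h2, key c h1⟩
  rw [himg, Measure.addHaar_image_linearMap, hdet, abs_of_pos (prod_pos fun i _ => ha i)]

omit [MeasurableSpace E] [BorelSpace E] in
lemma exists_gen (v : ι → E) {ε : ℝ} (hε : 0 < ε) :
    ∃ w : ι → ℝ, (∀ i, 1 ≤ w i ∧ w i ≤ 1 + ε) ∧ Gen v w := by
  classical
  -- the bad sets
  let U : Finset ι → Submodule ℝ (ι → ℝ) := fun J =>
    (LinearMap.range (LinearMap.pi fun i : J => LinearMap.applyₗ (R := ℝ) (M₂ := ℝ) (v i))).comap
      (LinearMap.funLeft ℝ ℝ (Subtype.val : J → ι))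
  have hU : ∀ J : Finset ι, finrank ℝ E < J.card → U J ≠ ⊤ := by
    intro J hJ h
    have hsurj : Function.Surjective (LinearMap.funLeft ℝ ℝ (Subtype.val : J → ι)) :=
      LinearMap.funLeft_surjective_of_injective _ _ _ Subtype.val_injective
    have h1 : LinearMap.range (LinearMap.pi fun i : J =>
        LinearMap.applyₗ (R := ℝ) (M₂ := ℝ) (v i)) = ⊤ := by
      rw [eq_top_iff]
      intro z _
      obtain ⟨w, rfl⟩ := hsurj z
      have : w ∈ U J := by rw [h]; trivial
      exact this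
    have h2 := LinearMap.finrank_range_le (LinearMap.pi fun i : J =>
        LinearMap.applyₗ (R := ℝ) (M₂ := ℝ) (v i))
    rw [h1, finrank_top] at h2
    have h3 : finrank ℝ (E →ₗ[ℝ] ℝ) = finrank ℝ E := Subspace.dual_finrank_eq
    rw [h3] at h2
    simp at h2
    omega
  have hnull : volume (⋃ J ∈ {J : Finset ι | finrank ℝ E < J.card}, (U J : Set (ι → ℝ))) = 0 :=
    (measure_biUnion_null_iff (Set.to_countable _)).mpr fun J hJ =>
      Measure.addHaar_submodule volume _ (hU J hJ)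
  have hbox : volume (Set.Icc (fun _ : ι => (1 : ℝ)) fun _ => 1 + ε) ≠ 0 := by
    rw [Real.volume_Icc_pi]
    simp only [add_sub_cancel_left]
    rw [prod_const]
    exact pow_ne_zero _ (ENNReal.ofReal_pos.mpr hε).ne'
  have hex : ∃ w ∈ Set.Icc (fun _ : ι => (1 : ℝ)) fun _ => 1 + ε,
      w ∉ ⋃ J ∈ {J : Finset ι | finrank ℝ E < J.card}, (U J : Set (ι → ℝ)) := by
    by_contra hcon
    push Not at hcon
    exact hbox (measure_mono_null hcon hnull)
  obtain ⟨w, hw, hwU⟩ := hex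
  refine ⟨w, fun i => ⟨hw.1 i, hw.2 i⟩, fun J hJ ⟨ξ, hξ⟩ => hwU ?_⟩
  simp only [Set.mem_iUnion]
  refine ⟨J, hJ, ?_⟩
  show w ∈ U J
  refine ⟨ξ, ?_⟩
  ext i
  simpa using hξ i i.2

lemma main_gen {v : ι → E} {w : ι → ℝ} (hw : ∀ i, 0 < w i) (hg : Gen v w)
    {a : ι → ℝ} (ha : ∀ i, 0 < a i) {κ : ℝ}
    (hκ : ∀ I : Finset ι, I.card = finrank ℝ E → κ ≤ ∏ i ∈ I, a i + ∏ i ∈ I, (a i)⁻¹) :
    ENNReal.ofReal κ * μ (T (fun _ => 1) v w) ≤ μ (T a v w) + μ (T (fun i => (a i)⁻¹) v w) := by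
  classical
  let 𝓕 : Finset (Finset ι) := univ.filter fun I => IsFacet v w I
  have h𝓕 : ∀ I ∈ 𝓕, IsFacet v w I := fun I hI => (mem_filter.mp hI).2
  have hcov : μ (T (fun _ => 1) v w) ≤ ∑ I ∈ 𝓕, μ (cell I (fun _ => 1) v w) := by
    have h1 : T (fun _ => 1) v w ⊆ Nul v ∪ ⋃ I ∈ 𝓕, cell I (fun _ => 1) v w := by
      intro y hy
      by_cases hN : y ∈ Nul v
      · exact Or.inl hN
      · obtain ⟨I, hI, hyI⟩ := cover hw hg hy hN
        refine Or.inr ?_
        simp only [Set.mem_iUnion]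
        exact ⟨I, by simp [𝓕, hI], hyI⟩
    calc μ (T (fun _ => 1) v w) ≤ μ (Nul v ∪ ⋃ I ∈ 𝓕, cell I (fun _ => 1) v w) := measure_mono h1
      _ ≤ μ (Nul v) + μ (⋃ I ∈ 𝓕, cell I (fun _ => 1) v w) := measure_union_le _ _
      _ = μ (⋃ I ∈ 𝓕, cell I (fun _ => 1) v w) := by rw [measure_Nul, zero_add]
      _ ≤ _ := measure_biUnion_finset_le _ _
  have hpack : ∀ e : ι → ℝ, (∀ i, 0 < e i) → ∑ I ∈ 𝓕, μ (cell I e v w) ≤ μ (T e v w) := by
    intro e he
    rw [← measure_biUnion_finset₀]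
    · exact measure_mono (Set.iUnion₂_subset fun I _ => cell_subset I e v w)
    · intro I hI J hJ hne
      exact measure_mono_null (cell_inter he (h𝓕 I hI) (h𝓕 J hJ) hne) (measure_Nul μ v)
    · exact fun I _ => (isCompact_cell I e v hw).measurableSet.nullMeasurableSet
  have hterm : ∀ I ∈ 𝓕, ENNReal.ofReal κ * μ (cell I (fun _ => 1) v w) ≤
      μ (cell I a v w) + μ (cell I (fun i => (a i)⁻¹) v w) := by
    intro I hI
    obtain ⟨hind, hcard, _⟩ := h𝓕 I hI
    rw [measure_cell μ w hind hcard ha, measure_cell μ w hind hcard (fun i => inv_pos.mpr (ha i)),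
      ← add_mul]
    gcongr
    rw [← ENNReal.ofReal_add (prod_nonneg fun i _ => (ha i).le)
      (prod_nonneg fun i _ => (inv_pos.mpr (ha i)).le)]
    exact ENNReal.ofReal_le_ofReal (hκ I hcard)
  calc ENNReal.ofReal κ * μ (T (fun _ => 1) v w)
      ≤ ENNReal.ofReal κ * ∑ I ∈ 𝓕, μ (cell I (fun _ => 1) v w) := by gcongr
    _ = ∑ I ∈ 𝓕, ENNReal.ofReal κ * μ (cell I (fun _ => 1) v w) := mul_sum _ _ _
    _ ≤ ∑ I ∈ 𝓕, (μ (cell I a v w) + μ (cell I (fun i => (a i)⁻¹) v w)) := sum_le_sum hterm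
    _ = ∑ I ∈ 𝓕, μ (cell I a v w) + ∑ I ∈ 𝓕, μ (cell I (fun i => (a i)⁻¹) v w) :=
        sum_add_distrib
    _ ≤ _ := add_le_add (hpack a ha) (hpack _ fun i => inv_pos.mpr (ha i))

/-- Comparison for finitely many points, all costs equal to `1`. -/
lemma main_fin (v : ι → E) {a : ι → ℝ} (ha : ∀ i, 0 < a i) {κ : ℝ}
    (hκ : ∀ I : Finset ι, I.card = finrank ℝ E → κ ≤ ∏ i ∈ I, a i + ∏ i ∈ I, (a i)⁻¹) :
    ENNReal.ofReal κ * μ (T (fun _ => 1) v (fun _ => 1)) ≤
      μ (T a v (fun _ => 1)) + μ (T (fun i => (a i)⁻¹) v (fun _ => 1)) := by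
  have hmono : ∀ (e w : ι → ℝ), (∀ i, 1 ≤ w i) → T e v w ⊆ T e v (fun _ => 1) := by
    rintro e w hw y ⟨c, h0, h1, h2⟩
    refine ⟨c, h0, le_trans (sum_le_sum fun i _ => ?_) h1, h2⟩
    exact mul_le_mul_of_nonneg_left (hw i) (h0 i)
  have key : ∀ ε : ℝ, 0 < ε → ENNReal.ofReal κ * μ (T (fun _ => 1) v (fun _ => 1)) ≤
      ENNReal.ofReal ((1 + ε) ^ finrank ℝ E) *
        (μ (T a v (fun _ => 1)) + μ (T (fun i => (a i)⁻¹) v (fun _ => 1))) := by
    intro ε hε
    obtain ⟨w, hw, hg⟩ := exists_gen v hε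
    have h1 := main_gen μ (fun i => lt_of_lt_of_le one_pos (hw i).1) hg ha hκ
    have h2 : T (fun _ => 1) v (fun _ => 1) ⊆ (1 + ε) • T (fun _ => 1) v w := by
      rintro y ⟨c, h0, h1, h2⟩
      rw [Set.mem_smul_set]
      refine ⟨(1 + ε)⁻¹ • y, ⟨fun i => (1 + ε)⁻¹ * c i, fun i => by have := h0 i; positivity, ?_,
        ?_⟩, ?_⟩
      · calc ∑ i, (1 + ε)⁻¹ * c i * w i ≤ ∑ i, c i * 1 := by
              refine sum_le_sum fun i _ => ?_
              have h3 := (hw i).2
              have h4 := h0 i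
              rw [mul_assoc, inv_mul_le_iff₀ (by positivity)]
              nlinarith
          _ ≤ 1 := h1
      · rw [h2, smul_sum]
        refine sum_congr rfl fun i _ => ?_
        rw [smul_smul, mul_assoc]
      · rw [smul_smul, mul_inv_cancel₀ (by positivity), one_smul]
    calc ENNReal.ofReal κ * μ (T (fun _ => 1) v (fun _ => 1))
        ≤ ENNReal.ofReal κ * μ ((1 + ε) • T (fun _ => 1) v w) := by gcongr
      _ = ENNReal.ofReal ((1 + ε) ^ finrank ℝ E) *
          (ENNReal.ofReal κ * μ (T (fun _ => 1) v w)) := by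
          rw [Measure.addHaar_smul, abs_of_nonneg (by positivity)]
          ring
      _ ≤ ENNReal.ofReal ((1 + ε) ^ finrank ℝ E) *
          (μ (T a v w) + μ (T (fun i => (a i)⁻¹) v w)) := by gcongr
      _ ≤ _ := by
          gcongr
          · exact hmono _ _ fun i => (hw i).1
          · exact hmono _ _ fun i => (hw i).1
  have hlim : Filter.Tendsto (fun ε : ℝ => ENNReal.ofReal ((1 + ε) ^ finrank ℝ E) *
        (μ (T a v (fun _ => 1)) + μ (T (fun i => (a i)⁻¹) v (fun _ => 1))))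
      (nhdsWithin 0 (Set.Ioi 0)) (nhds (ENNReal.ofReal ((1 + 0) ^ finrank ℝ E) *
        (μ (T a v (fun _ => 1)) + μ (T (fun i => (a i)⁻¹) v (fun _ => 1))))) := by
    refine ENNReal.Tendsto.mul_const ?_ (Or.inl (by simp))
    refine (ENNReal.continuous_ofReal.tendsto _).comp ?_
    have : Filter.Tendsto (fun ε : ℝ => (1 + ε) ^ finrank ℝ E) (nhds 0)
        (nhds ((1 + 0) ^ finrank ℝ E)) := by
      apply Continuous.tendsto (f := fun ε : ℝ => (1 + ε) ^ finrank ℝ E)
      fun_prop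
    exact this.mono_left nhdsWithin_le_nhds
  have h := ge_of_tendsto hlim (Filter.eventually_of_mem self_mem_nhdsWithin fun ε hε => key ε hε)
  simpa using h

end Pool.Agent.Lib.MP_725e58_gt
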